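import Pool.Agent.H59.KA.Stmts

/-!
# Project KA, module QPH: algebra of `Ph`
-/

set_option autoImplicit false

open MeasureTheory Set Filter Topology
open scoped ContDiff

namespace Pool.Agent.H59.KA

open Pool.Agent.H84 hiding cv mn
open Pool.Agent.H84.Sym Pool.Agent.H84.Sym.P2x Pool.Agent.H19.KL
open Pool.Agent.H73.KG Pool.Agent.H20.KH Pool.Agent.H78.KP

theorem QPH_symm {ι : Type} [Fintype ι] [DecidableEq ι] {B : Matrix ι ι ℝ} (hB : SY B) :
    B.IsSymm := by
  ext i j
  simp only [Matrix.transpose_apply]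
  exact hB j i

theorem QPH_psd_conj {ι : Type} [Fintype ι] [DecidableEq ι] {M B : Matrix ι ι ℝ} (hB : SY B)
    (hM : M.PosSemidef) : (B * M * B).PosSemidef := by
  have h := hM.mul_mul_conjTranspose_same B
  have hBt : B.conjTranspose = B := by
    ext i j
    simp [Matrix.conjTranspose_apply, hB i j]
  rwa [hBt] at h

open scoped MatrixOrder in
theorem QPH_trace_nonneg {ι : Type} [Fintype ι] [DecidableEq ι] {M N : Matrix ι ι ℝ}
    (hM : M.PosSemidef) (hN : N.PosSemidef) : 0 ≤ (M * N).trace := by
  classical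
  obtain ⟨R, hR'⟩ := CStarAlgebra.nonneg_iff_eq_star_mul_self.mp hN.nonneg
  have hR : N = R.conjTranspose * R := hR'
  have h1 : (M * N).trace = (R * M * R.conjTranspose).trace := by
    rw [hR, ← Matrix.mul_assoc, Matrix.trace_mul_comm (M * R.conjTranspose) R, Matrix.mul_assoc]
  rw [h1]
  exact (hM.mul_mul_conjTranspose_same R).trace_nonneg

theorem QPH_form {ι : Type} [Fintype ι] [DecidableEq ι] (M B : Matrix ι ι ℝ) (v : ι → ℝ) :
    Ph M B v = (M * B * M * B).trace + ∑ i, ∑ j, M i j * (v i * v j) := by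
  unfold Ph
  congr 1
  simp only [Matrix.trace, Matrix.diag_apply, Matrix.mul_apply, Finset.sum_mul]
  refine Finset.sum_congr rfl fun i _ => ?_
  calc ∑ j, ∑ k, ∑ l, M i j * B j k * (M k l * B l i)
      = ∑ k, ∑ j, ∑ l, M i j * B j k * (M k l * B l i) := Finset.sum_comm
    _ = ∑ k, ∑ l, ∑ j, M i j * B j k * (M k l * B l i) :=
        Finset.sum_congr rfl fun k _ => Finset.sum_comm
    _ = ∑ l, ∑ k, ∑ j, M i j * B j k * (M k l * B l i) := Finset.sum_comm
    _ = _ := by
        refine Finset.sum_congr rfl fun l _ => Finset.sum_congr rfl fun k _ =>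
          Finset.sum_congr rfl fun j _ => ?_
        ring

theorem QPH_quad_nonneg {ι : Type} [Fintype ι] [DecidableEq ι] {M : Matrix ι ι ℝ}
    (hM : M.PosSemidef) (v : ι → ℝ) : 0 ≤ ∑ i, ∑ j, M i j * (v i * v j) := by
  have h := hM.dotProduct_mulVec_nonneg v
  have h2 : star v ⬝ᵥ (M.mulVec v) = ∑ i, ∑ j, M i j * (v i * v j) := by
    simp only [dotProduct, Matrix.mulVec, Finset.mul_sum, star_trivial]
    refine Finset.sum_congr rfl fun i _ => Finset.sum_congr rfl fun j _ => ?_
    ring
  rwa [h2] at h

theorem qph_thm : QPHStmt := by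
  intro ι _ _ M B v hB
  refine ⟨QPH_form M B v, ?_, ?_, ?_⟩
  · intro a
    rw [QPH_form]
    congr 1
    · simp only [Matrix.smul_mul, Matrix.one_mul, Matrix.mul_smul, Matrix.mul_one, smul_smul,
        Matrix.trace_smul, smul_eq_mul]
      rw [← sq]
      congr 1
      simp only [Matrix.trace, Matrix.diag_apply, Matrix.mul_apply]
      refine Finset.sum_congr rfl fun i _ => Finset.sum_congr rfl fun j _ => ?_
      rw [hB j i]; ring
    · rw [Finset.mul_sum]
      refine Finset.sum_congr rfl fun i _ => ?_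
      rw [Finset.sum_eq_single i]
      · rw [Matrix.smul_apply, Matrix.one_apply_eq, smul_eq_mul]; ring
      · intro j _ hj
        simp [Matrix.one_apply_ne (Ne.symm hj)]
      · intro h; exact absurd (Finset.mem_univ i) h
  · intro hM
    rw [QPH_form]
    refine add_nonneg ?_ (QPH_quad_nonneg hM v)
    have h1 : (M * B * M * B) = M * (B * M * B) := by simp only [Matrix.mul_assoc]
    rw [h1]
    exact QPH_trace_nonneg hM (QPH_psd_conj hB hM)
  · intro D hM hD
    rw [QPH_form, QPH_form]
    refine add_le_add ?_ ?_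
    · have h1 : ((M + D) * B * (M + D) * B) =
          M * B * M * B + D * (B * M * B) + M * (B * D * B) + D * (B * D * B) := by
        simp only [Matrix.add_mul, Matrix.mul_add, Matrix.mul_assoc]
        abel
      rw [h1, Matrix.trace_add, Matrix.trace_add, Matrix.trace_add]
      have a1 := QPH_trace_nonneg hD (QPH_psd_conj hB hM)
      have a2 := QPH_trace_nonneg hM (QPH_psd_conj hB hD)
      have a3 := QPH_trace_nonneg hD (QPH_psd_conj hB hD)
      linarith
    · have h1 := QPH_quad_nonneg hD v
      have h2 : ∑ i, ∑ j, (M + D) i j * (v i * v j) =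
          ∑ i, ∑ j, M i j * (v i * v j) + ∑ i, ∑ j, D i j * (v i * v j) := by
        rw [← Finset.sum_add_distrib]
        refine Finset.sum_congr rfl fun i _ => ?_
        rw [← Finset.sum_add_distrib]
        refine Finset.sum_congr rfl fun j _ => ?_
        rw [Matrix.add_apply]; ring
      rw [h2]; linarith

end Pool.Agent.H59.KA
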